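import Mathlib
import Pool.Agent.W926.PS.Stm
import Pool.Agent.W926.PS.Base
set_option autoImplicit false

/-!
# Project PS: special case II, eight patterns
-/

namespace Pool.Agent.W571.PS

open W926.PS

variable {r a : ℕ}

theorem six_inj_II {X Y : Fin 3 → Om r a} {i j : Fin r} {c d e : Fin a}
    (h : CaseII X Y i j c d e) : Function.Injective (six X Y) := by
  have hXY : ∀ g k, X g ≠ Y k := by
    intro g k he
    have h1 := (h.ate g).1
    have h2 := (h.ate k).2
    rw [he, h2] at h1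
    exact Bool.noConfusion h1
  have h01 : X 0 ≠ X 1 := fun he => h.atd (by rw [he])
  have h02 : X 0 ≠ X 2 := fun he => h.atc.2 (by rw [he])
  have h12 : X 1 ≠ X 2 := fun he => h.atc.2 (by rw [← he, h.atc.1])
  have hYi : ∀ g, Y g i = X g i := fun g => (h.xy i h.ij g).symm
  have k01 : Y 0 ≠ Y 1 := fun he => h.atd (by
    rw [← hYi 1, ← hYi 0, he])
  have k02 : Y 0 ≠ Y 2 := fun he => h.atc.2 (by
    rw [← hYi 2, ← hYi 0, he])
  have k12 : Y 1 ≠ Y 2 := fun he => h.atc.2 (by
    rw [← h.atc.1, ← hYi 2, ← hYi 1, he])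
  have hYX : ∀ g k, Y g ≠ X k := fun g k => (hXY k g).symm
  intro u v huv
  fin_cases u <;> fin_cases v <;>
    first
    | rfl
    | (exfalso
       first
       | exact hXY _ _ huv
       | exact hYX _ _ huv
       | exact h01 huv
       | exact h02 huv
       | exact h12 huv
       | exact k01 huv
       | exact k02 huv
       | exact k12 huv
       | exact h01.symm huv
       | exact h02.symm huv
       | exact h12.symm huv
       | exact k01.symm huv
       | exact k02.symm huv
       | exact k12.symm huv)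

theorem iib : S_EIGHT → S_TYP → S_IIB := by
  intro hE hT r a κ F hR X Y i j c d e h
  have h8 := hE r a F (st1 j) (hR.first1 j) (six X Y) (six_inj_II h)
  refine h8.trans (nq_mono F _ _ _ ?_)
  rintro key - ⟨φ, hk⟩
  have hc1 : Coll (X 0) (Y 0) (X 1) (Y 1) j e := by
    refine ⟨fun b hb => h.xy b hb 0, fun b hb => h.xy b hb 1, ⟨i, h.ij, ?_⟩, ?_, (h.ate 0).1,
      (h.ate 1).1, (h.ate 0).2, (h.ate 1).2⟩
    · intro he
      exact h.atd (by rw [he])
    · intro c' hc'
      exact ⟨(h.prej c' hc' 0).2.symm, (h.prej c' hc' 1).1.symm, (h.prej c' hc' 1).2.symm⟩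
  have hc2 : Coll (X 0) (Y 0) (X 2) (Y 2) j e := by
    refine ⟨fun b hb => h.xy b hb 0, fun b hb => h.xy b hb 2, ⟨i, h.ij, ?_⟩, ?_, (h.ate 0).1,
      (h.ate 2).1, (h.ate 0).2, (h.ate 2).2⟩
    · intro he
      exact h.atc.2 (by rw [he])
    · intro c' hc'
      exact ⟨(h.prej c' hc' 0).2.symm, (h.prej c' hc' 2).1.symm, (h.prej c' hc' 2).2.symm⟩
  refine ⟨(hT r a _ _ _ _ _ _ hc1 key).2.1 φ hk, (hT r a _ _ _ _ _ _ hc2 key).2.1 φ hk, ?_⟩
  intro hP
  have hij : i ≠ j := ne_of_lt h.ij
  have hst : st1 j (i, c) = 1 := by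
    unfold st1
    rw [if_neg hij]
  have hbef : ∀ g, ∀ p' : Pos r a, Before (st1 j) p' (i, c) → X g p'.1 p'.2 = X 0 p'.1 p'.2 := by
    rintro g ⟨b, f⟩ hb
    unfold Before at hb
    rw [hst] at hb
    by_cases hbj : b = j
    · subst hbj
      exact congrFun (hP g).1 f
    · rcases hb with hb | ⟨-, hb⟩
      · exfalso
        unfold st1 at hb
        rw [if_neg hbj] at hb
        exact lt_irrefl _ hb
      · rcases nrk_lt_iff.1 hb with h1 | ⟨h1, h2⟩
        · exact congrFun (h.agree b h1 g) f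
        · simp only at h1 h2
          subst h1
          exact h.prei f h2 g
  have h02 : FD (st1 j) (X 0) (X 2) (i, c) :=
    ⟨fun p' hp => (hbef 2 p' hp).symm, fun he => h.atc.2 he.symm⟩
  have h12 : FD (st1 j) (X 1) (X 2) (i, c) :=
    ⟨fun p' hp => (hbef 1 p' hp).trans (hbef 2 p' hp).symm, fun he => h.atc.2 (by
      rw [← h.atc.1]
      exact he.symm)⟩
  have e1 := hk _ _ _ h02
  have e2 := hk _ _ _ h12
  simp only [h.atc.1] at e2
  exact e1.trans e2.symm

end Pool.Agent.W571.PS
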