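import Mathlib
import Pool.Agent.W926.PS.Stm
import Pool.Agent.W926.PS.Base
set_option autoImplicit false

/-!
# Project PS: special case I, one more pattern
-/

namespace Pool.Agent.W571.PS

open W926.PS

variable {r a : ℕ}

theorem eq_of_div_mod {x y κ : ℕ} (h1 : x / κ = y / κ) (h2 : x % κ = y % κ) : x = y := by
  rw [← Nat.div_add_mod x κ, ← Nat.div_add_mod y κ, h1, h2]

theorem lt_of_div_lt {x y κ : ℕ} (h : x / κ < y / κ) : x < y := by
  by_contra h1
  push Not at h1
  have := Nat.div_le_div_right (c := κ) h1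
  omega

theorem stO_self (κ : ℕ) (j : Fin r) (o : ℕ) (f : Fin a) :
    stO κ j o (j, f) = 2 * ((f : ℕ) / κ) + (if (f : ℕ) % κ = o then 0 else 1) := by
  unfold stO
  simp

theorem stO_ge (κ : ℕ) (j : Fin r) (o : ℕ) (p : Pos r a) (h : p.1 ≠ j) :
    2 * a + 2 ≤ stO κ j o p := by
  unfold stO
  rw [if_neg h]
  have : 2 * a + 2 ≤ ((p.1 : ℕ) + 1) * (2 * a + 2) := Nat.le_mul_of_pos_left _ (by omega)
  omega

theorem before_e {κ : ℕ} {j : Fin r} {d e : Fin a} (hde : (d : ℕ) / κ = (e : ℕ) / κ)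
    {p' : Pos r a} (h : Before (stO κ j ((e : ℕ) % κ)) p' (j, e)) :
    p'.1 = j ∧ p'.2 < d := by
  have he := e.2
  have he2 : (e : ℕ) / κ ≤ e := Nat.div_le_self _ _
  unfold Before at h
  rw [stO_self, if_pos rfl] at h
  have hj : p'.1 = j := by
    by_contra hne
    have := stO_ge κ j ((e : ℕ) % κ) p' hne
    omega
  refine ⟨hj, ?_⟩
  obtain ⟨b, f⟩ := p'
  simp only at hj
  subst hj
  rw [stO_self] at h
  simp only
  rw [Fin.lt_def]
  apply lt_of_div_lt (κ := κ)
  rw [hde]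
  by_contra hcon
  have h1 : (f : ℕ) / κ = (e : ℕ) / κ ∧ (f : ℕ) % κ = (e : ℕ) % κ ∧ nrk (b, f) < nrk (b, e) := by
    by_cases hm : (f : ℕ) % κ = (e : ℕ) % κ
    · rw [if_pos hm] at h
      refine ⟨by omega, hm, by omega⟩
    · rw [if_neg hm] at h
      omega
  obtain ⟨h2, h3, h4⟩ := h1
  have h5 : f = e := Fin.ext (eq_of_div_mod h2 h3)
  rw [h5] at h4
  exact lt_irrefl _ h4

theorem before_d {κ : ℕ} {j : Fin r} {d e : Fin a} (hde : (d : ℕ) / κ = (e : ℕ) / κ)
    (hlt : d < e) {p' : Pos r a} (h : Before (stO κ j ((e : ℕ) % κ)) p' (j, d)) :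
    p'.1 = j ∧ (p'.2 < d ∨ p'.2 = e) := by
  have hd := d.2
  have hd2 : (d : ℕ) / κ ≤ d := Nat.div_le_self _ _
  have hne : (d : ℕ) % κ ≠ (e : ℕ) % κ := by
    intro h1
    have := eq_of_div_mod hde h1
    rw [Fin.lt_def] at hlt
    omega
  unfold Before at h
  rw [stO_self, if_neg hne] at h
  have hj : p'.1 = j := by
    by_contra hne
    have := stO_ge κ j ((e : ℕ) % κ) p' hne
    omega
  refine ⟨hj, ?_⟩
  obtain ⟨b, f⟩ := p'
  simp only at hj
  subst hj
  rw [stO_self] at h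
  simp only
  by_cases hm : (f : ℕ) % κ = (e : ℕ) % κ
  · rw [if_pos hm] at h
    by_cases h1 : (f : ℕ) / κ < (d : ℕ) / κ
    · left
      rw [Fin.lt_def]
      exact lt_of_div_lt h1
    · right
      apply Fin.ext
      refine eq_of_div_mod ?_ hm
      rw [← hde]
      omega
  · rw [if_neg hm] at h
    left
    by_cases h1 : (f : ℕ) / κ < (d : ℕ) / κ
    · rw [Fin.lt_def]
      exact lt_of_div_lt h1
    · have h2 : nrk (b, f) < nrk (b, d) := by omega
      rcases nrk_lt_iff.1 h2 with h3 | ⟨-, h3⟩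
      · exact absurd h3 (lt_irrefl _)
      · exact h3

theorem bool_third {x y z : Bool} (h1 : y ≠ x) (h2 : z ≠ x) : y = z := by
  cases x <;> cases y <;> cases z <;> simp_all

/-- the points agree before `e` -/
theorem low {X Z : Fin 3 → Om r a} {i j : Fin r} {d e : Fin a} (h : CaseI X Z i j d e)
    (f : Fin a) (hf : f < e) : X 1 j f = X 0 j f ∧ Z 0 j f = X 0 j f ∧ Z 1 j f = X 0 j f := by
  rcases lt_trichotomy f d with h1 | h1 | h1
  · exact ⟨(h.pre f h1 1).1, (h.pre f h1 0).2, (h.pre f h1 1).2⟩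
  · subst h1
    exact ⟨h.atd.1, h.atd.2.1, h.atd.2.2.1⟩
  · exact h.mid f h1 hf

/-- symbols of different groups differ -/
theorem groups {X Z : Fin 3 → Om r a} {i j : Fin r} {d e : Fin a} (h : CaseI X Z i j d e)
    (g k : Fin 3) (hgk : g ≠ k) : X g j ≠ X k j ∧ X g j ≠ Z k j ∧ Z g j ≠ X k j ∧ Z g j ≠ Z k j := by
  obtain ⟨a1, a2, a3, a4, a5⟩ := h.atd
  obtain ⟨b1, b2, b3, b4⟩ := h.ate
  have key01 : ∀ x y : Fin a → Bool, x e = false → y e = true → x ≠ y := by
    intro x y hx hy he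
    rw [he, hy] at hx
    exact Bool.noConfusion hx
  have key2 : ∀ x y : Fin a → Bool, x d = X 0 j d → y d ≠ X 0 j d → x ≠ y := by
    intro x y hx hy he
    exact hy (by rw [← he, hx])
  fin_cases g <;> fin_cases k
  · exact absurd rfl hgk
  · exact ⟨key01 _ _ b1 b3, key01 _ _ b1 b4, key01 _ _ b2 b3, key01 _ _ b2 b4⟩
  · exact ⟨key2 _ _ rfl a4, key2 _ _ rfl a5, key2 _ _ a2 a4, key2 _ _ a2 a5⟩
  · exact ⟨(key01 _ _ b1 b3).symm, (key01 _ _ b2 b3).symm, (key01 _ _ b1 b4).symm,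
      (key01 _ _ b2 b4).symm⟩
  · exact absurd rfl hgk
  · exact ⟨key2 _ _ a1 a4, key2 _ _ a1 a5, key2 _ _ a3 a4, key2 _ _ a3 a5⟩
  · exact ⟨(key2 _ _ rfl a4).symm, (key2 _ _ a2 a4).symm, (key2 _ _ rfl a5).symm,
      (key2 _ _ a2 a5).symm⟩
  · exact ⟨(key2 _ _ a1 a4).symm, (key2 _ _ a3 a4).symm, (key2 _ _ a1 a5).symm,
      (key2 _ _ a3 a5).symm⟩
  · exact absurd rfl hgk

theorem case_a {κ : ℕ} {F : Finset (Om r a → ℕ)} (hR : Rich κ F) {X Z : Fin 3 → Om r a}
    {i j : Fin r} {d e : Fin a} (h : CaseI X Z i j d e) (g : Fin 3) (hg : X g j ≠ Z g j) :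
    ∃ key ∈ F, ¬ AI X Z key ∧ ¬ BI X Z key := by
  classical
  obtain ⟨k, hk⟩ : ∃ k : Fin 3, g ≠ k := by
    by_cases h0 : g = 0
    · exact ⟨1, by rw [h0]; decide⟩
    · exact ⟨0, h0⟩
  obtain ⟨g1, g2, g3, g4⟩ := groups h g k hk
  have hij : i ≠ j := ne_of_lt h.ij
  obtain ⟨key, hkey, W', hW', hwt⟩ := hR.wt
    {(i, X 0 i), (i, Z 0 i), (j, X g j), (j, Z g j), (j, X k j), (j, Z k j)}
    ((Finset.card_le_six).trans (by norm_num))
    (fun p => if p = (i, X 0 i) then 0 else if p = (i, Z 0 i) then 1 else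
      if p = (j, X g j) then 0 else if p = (j, Z g j) then 2 else 1)
  have w1 : W' (i, X 0 i) = 0 := by
    rw [hW' _ (by simp)]
    simp
  have w2 : W' (i, Z 0 i) = 1 := by
    rw [hW' _ (by simp)]
    have : ((i, Z 0 i) : Fin r × (Fin a → Bool)) ≠ (i, X 0 i) := by
      intro he
      exact h.differ (Prod.ext_iff.1 he).2.symm
    simp [this]
  have nij : ∀ x y : Fin a → Bool, ((j, x) : Fin r × (Fin a → Bool)) ≠ (i, y) := by
    intro x y he
    exact hij (Prod.ext_iff.1 he).1.symm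
  have njj : ∀ x y : Fin a → Bool, x ≠ y → ((j, x) : Fin r × (Fin a → Bool)) ≠ (j, y) := by
    intro x y hxy he
    exact hxy (Prod.ext_iff.1 he).2
  have w3 : W' (j, X g j) = 0 := by
    rw [hW' _ (by simp)]
    rw [if_neg (nij _ _), if_neg (nij _ _), if_pos rfl]
  have w4 : W' (j, Z g j) = 2 := by
    rw [hW' _ (by simp)]
    rw [if_neg (nij _ _), if_neg (nij _ _), if_neg (njj _ _ hg.symm), if_pos rfl]
  have w5 : W' (j, X k j) = 1 := by
    rw [hW' _ (by simp)]
    rw [if_neg (nij _ _), if_neg (nij _ _), if_neg (njj _ _ g1.symm), if_neg (njj _ _ g3.symm)]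
  have w6 : W' (j, Z k j) = 1 := by
    rw [hW' _ (by simp)]
    rw [if_neg (nij _ _), if_neg (nij _ _), if_neg (njj _ _ g2.symm), if_neg (njj _ _ g4.symm)]
  have hXX : key (X g) < key (X k) := by
    refine hwt _ _ j (fun b hb => ?_) ?_
    · rw [h.xx b hb g, h.xx b hb k]
    · rw [w3, w5]
      decide
  have hZZ : key (Z k) < key (Z g) := by
    refine hwt _ _ j (fun b hb => ?_) ?_
    · rw [h.zz b hb g, h.zz b hb k]
    · rw [w6, w4]
      decide
  have hXZ : ∀ u v : Fin 3, key (X u) < key (Z v) := by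
    intro u v
    refine hwt _ _ i (fun b hb => ?_) ?_
    · rw [h.xx b (hb.trans h.ij) u, h.zz b (hb.trans h.ij) v, h.agree b hb]
    · rw [h.xx i h.ij u, h.zz i h.ij v, w1, w2]
      decide
  refine ⟨key, hkey, ?_, ?_⟩
  · rintro ⟨-, -, h3⟩
    have := (h3 g k).1 hXX
    omega
  · rintro ⟨h1, -⟩
    have hB : Blk key (X 0) (X 1) (Z 0) (Z 1) := by
      refine ⟨?_, ?_, ?_⟩ <;> exact iff_of_true (hXZ _ _) (hXZ _ _)
    have hne : X 1 ≠ Z 0 := by
      intro he
      have := hXZ 1 0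
      rw [he] at this
      exact lt_irrefl _ this
    exact not_blk_crs (hR.inj key hkey) hne hB h1

theorem case_b {κ : ℕ} {F : Finset (Om r a → ℕ)} (hκ : 0 < κ) (hR : Rich κ F)
    {X Z : Fin 3 → Om r a} {i j : Fin r} {d e : Fin a} (h : CaseI X Z i j d e)
    (hXZ : ∀ g, X g j = Z g j) (hde : (d : ℕ) / κ < (e : ℕ) / κ) :
    ∃ key ∈ F, ¬ AI X Z key ∧ ¬ BI X Z key := by
  obtain ⟨key, hkey, φ, hk⟩ := hR.cutA j ((e : ℕ) / κ) (Nat.div_le_div_right e.2.le)
  have hdc : (d : ℕ) < (e : ℕ) / κ * κ := (Nat.div_lt_iff_lt_mul hκ).1 hde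
  have hce : (e : ℕ) / κ * κ ≤ e := Nat.div_mul_le_self _ _
  set c := (e : ℕ) / κ * κ with hc
  have hinj := hR.inj key hkey
  refine ⟨key, hkey, ?_, ?_⟩
  · rintro ⟨-, h2, -⟩
    have hcrs : Crs key (X 0) (X 2) (Z 0) (Z 2) := by
      refine crs_of hk (p := (j, d)) ?_ ?_ ?_ ?_
      · rintro ⟨b, f⟩ hb
        have hst : stA j c (j, d) = 0 := by
          unfold stA
          rw [if_pos ⟨rfl, hdc⟩]
        unfold Before at hb
        rw [hst] at hb
        rcases hb with hb | ⟨hb1, hb2⟩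
        · exact absurd hb (Nat.not_lt_zero _)
        · have hbj : b = j := by
            by_contra hne
            unfold stA at hb1
            rw [if_neg (fun h1 => hne h1.1)] at hb1
            omega
          subst hbj
          have hfd : f < d := by
            rcases nrk_lt_iff.1 hb2 with h3 | ⟨-, h3⟩
            · exact absurd h3 (lt_irrefl _)
            · exact h3
          exact ⟨(h.pre f hfd 2).1.symm, (h.pre f hfd 0).2.symm, (h.pre f hfd 2).2.symm⟩
      · exact h.atd.2.1.symm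
      · exact bool_third h.atd.2.2.2.1 h.atd.2.2.2.2
      · exact h.atd.2.2.2.1.symm
    have hne : X 2 ≠ Z 0 := by
      intro he
      apply h.atd.2.2.2.1
      rw [he]
      exact h.atd.2.1
    exact not_blk_crs hinj hne h2 hcrs
  · rintro ⟨h1, -⟩
    have hne0 : X 0 ≠ Z 0 := fun he => h.differ (by rw [he])
    obtain ⟨P, hP⟩ := exists_FD (stA j c) hne0
    have hPj : P.1 ≠ j := by
      intro he
      apply hP.2
      rw [he, hXZ 0]
    have hstP : stA j c P = 1 := by
      unfold stA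
      rw [if_neg (fun h2 => hPj h2.1)]
    have hPi : P.1 < j := by
      by_contra hcon
      have h3 : i < P.1 := lt_of_lt_of_le h.ij (not_lt.1 hcon)
      apply h.differ
      funext f
      refine hP.1 (i, f) ?_
      right
      constructor
      · rw [hstP]
        unfold stA
        rw [if_neg (fun h2 => (ne_of_lt h.ij) h2.1)]
      · exact nrk_lt_iff.2 (Or.inl h3)
    have hB : Blk key (X 0) (X 1) (Z 0) (Z 1) := by
      refine blk_of hk (p := P) ?_ ?_ ?_ hP.2
      · rintro ⟨b, f⟩ hb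
        have h0 := hP.1 _ hb
        simp only at h0 ⊢
        unfold Before at hb
        rw [hstP] at hb
        by_cases hbf : b = j ∧ (f : ℕ) < c
        · obtain ⟨hbj, hf⟩ := hbf
          subst hbj
          have hfe : f < e := by
            rw [Fin.lt_def]
            omega
          obtain ⟨l1, l2, l3⟩ := low h f hfe
          exact ⟨l1.symm, h0, l3.symm⟩
        · have hst : stA j c (b, f) = 1 := by
            unfold stA
            rw [if_neg hbf]
          rw [hst] at hb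
          have hbj : b < j := by
            rcases hb with hb | ⟨-, hb⟩
            · exact absurd hb (lt_irrefl _)
            · rcases nrk_lt_iff.1 hb with h3 | ⟨h3, -⟩
              · exact lt_trans h3 hPi
              · simp only at h3
                rw [h3]
                exact hPi
          refine ⟨?_, h0, ?_⟩
          · rw [h.xx b hbj 1]
          · rw [h.zz b hbj 1]
            exact h0
      · rw [h.xx P.1 hPi 1]
      · rw [h.zz P.1 hPi 1]
    have hne : X 1 ≠ Z 0 := by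
      intro he
      have h2 := h.ate.2.2.1
      rw [he, h.ate.2.1] at h2
      exact Bool.noConfusion h2
    exact not_blk_crs hinj hne hB h1

theorem case_c {κ : ℕ} {F : Finset (Om r a → ℕ)} (hκ : 0 < κ) (hR : Rich κ F)
    {X Z : Fin 3 → Om r a} {i j : Fin r} {d e : Fin a} (h : CaseI X Z i j d e)
    (hde : (d : ℕ) / κ = (e : ℕ) / κ) :
    ∃ key ∈ F, ¬ AI X Z key ∧ ¬ BI X Z key := by
  classical
  have hdne : ((j, d) : Pos r a) ≠ (j, e) := by
    intro he
    exact (ne_of_lt h.de) (Prod.ext_iff.1 he).2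
  have hcard : ({(j, e), (j, d)} : Finset (Pos r a)).card ≤ 3 :=
    (Finset.card_le_two).trans (by norm_num)
  -- not AI
  have hnAI : ∀ key ∈ F, ∀ φ, PosKey (stO κ j ((e : ℕ) % κ)) φ key → ¬ AI X Z key := by
    rintro key hkey φ hk ⟨h1, -, -⟩
    have hcrs : Crs key (X 0) (X 1) (Z 0) (Z 1) := by
      refine crs_of hk (p := (j, e)) ?_ ?_ ?_ ?_
      · rintro ⟨b, f⟩ hb
        obtain ⟨hbj, hf⟩ := before_e hde hb
        simp only at hbj hf ⊢
        subst hbj
        exact ⟨(h.pre f hf 1).1.symm, (h.pre f hf 0).2.symm, (h.pre f hf 1).2.symm⟩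
      · simp only
        rw [h.ate.1, h.ate.2.1]
      · simp only
        rw [h.ate.2.2.1, h.ate.2.2.2]
      · simp only
        rw [h.ate.1, h.ate.2.2.1]
        decide
    have hne : X 1 ≠ Z 0 := by
      intro he
      have h2 := h.ate.2.2.1
      rw [he, h.ate.2.1] at h2
      exact Bool.noConfusion h2
    exact not_blk_crs (hR.inj key hkey) hne h1 hcrs
  have hX2 : X 2 j e = false ∨ X 2 j e = true := by
    cases X 2 j e
    · exact Or.inl rfl
    · exact Or.inr rfl
  rcases hX2 with hX2 | hX2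
  · obtain ⟨key, hkey, φ, hφ, hk⟩ := hR.off j ((e : ℕ) % κ) (Nat.mod_lt _ hκ) {(j, e), (j, d)} hcard
      (fun p => if p = (j, e) then X 0 j e else X 0 j d)
    have f1 : φ (j, e) = X 0 j e := by
      rw [hφ _ (by simp), if_pos rfl]
    have f2 : φ (j, d) = X 0 j d := by
      rw [hφ _ (by simp), if_neg hdne]
    refine ⟨key, hkey, hnAI key hkey φ hk, ?_⟩
    rintro ⟨-, h2⟩
    have hfd1 : FD (stO κ j ((e : ℕ) % κ)) (X 1) (X 2) (j, e) := by
      refine ⟨?_, ?_⟩
      · rintro ⟨b, f⟩ hb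
        obtain ⟨hbj, hf⟩ := before_e hde hb
        simp only at hbj hf ⊢
        subst hbj
        rw [(h.pre f hf 1).1, (h.pre f hf 2).1]
      · simp only
        rw [hX2, h.ate.2.2.1]
        decide
    have hfd2 : FD (stO κ j ((e : ℕ) % κ)) (X 0) (X 2) (j, d) := by
      refine ⟨?_, h.atd.2.2.2.1.symm⟩
      rintro ⟨b, f⟩ hb
      obtain ⟨hbj, hf⟩ := before_d hde h.de hb
      simp only at hbj hf ⊢
      subst hbj
      rcases hf with hf | hf
      · rw [(h.pre f hf 2).1]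
      · rw [hf, hX2, h.ate.1]
    have e1 := hk _ _ _ hfd1
    have e2 := hk _ _ _ hfd2
    rw [f1] at e1
    rw [f2] at e2
    simp only [h.ate.1, h.ate.2.2.1] at e1
    have e3 := e1.1 (h2.1 (e2.2 rfl))
    exact Bool.noConfusion e3
  · obtain ⟨key, hkey, φ, hφ, hk⟩ := hR.off j ((e : ℕ) % κ) (Nat.mod_lt _ hκ) {(j, e), (j, d)} hcard
      (fun p => if p = (j, e) then X 0 j e else X 2 j d)
    have f1 : φ (j, e) = X 0 j e := by
      rw [hφ _ (by simp), if_pos rfl]
    have f2 : φ (j, d) = X 2 j d := by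
      rw [hφ _ (by simp), if_neg hdne]
    refine ⟨key, hkey, hnAI key hkey φ hk, ?_⟩
    rintro ⟨-, h2⟩
    have hfd1 : FD (stO κ j ((e : ℕ) % κ)) (X 0) (X 2) (j, e) := by
      refine ⟨?_, ?_⟩
      · rintro ⟨b, f⟩ hb
        obtain ⟨hbj, hf⟩ := before_e hde hb
        simp only at hbj hf ⊢
        subst hbj
        rw [(h.pre f hf 2).1]
      · simp only
        rw [hX2, h.ate.1]
        decide
    have hfd2 : FD (stO κ j ((e : ℕ) % κ)) (X 1) (X 2) (j, d) := by
      refine ⟨?_, ?_⟩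
      · rintro ⟨b, f⟩ hb
        obtain ⟨hbj, hf⟩ := before_d hde h.de hb
        simp only at hbj hf ⊢
        subst hbj
        rcases hf with hf | hf
        · rw [(h.pre f hf 1).1, (h.pre f hf 2).1]
        · rw [hf, hX2, h.ate.2.2.1]
      · simp only
        rw [h.atd.1]
        exact h.atd.2.2.2.1.symm
    have e1 := hk _ _ _ hfd1
    have e2 := hk _ _ _ hfd2
    rw [f1] at e1
    rw [f2] at e2
    simp only at e2
    have e3 := e2.1 (h2.1 (e1.2 rfl))
    rw [h.atd.1] at e3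
    exact h.atd.2.2.2.1 e3.symm

theorem ix : S_IX := by
  intro r a κ F hκ hR X Z i j d e h
  by_cases hg : ∃ g, X g j ≠ Z g j
  · obtain ⟨g, hg⟩ := hg
    exact case_a hR h g hg
  · push Not at hg
    have hle : (d : ℕ) / κ ≤ (e : ℕ) / κ := Nat.div_le_div_right (le_of_lt h.de)
    rcases lt_or_eq_of_le hle with h1 | h1
    · exact case_b hκ hR h hg h1
    · exact case_c hκ hR h h1

end Pool.Agent.W571.PS
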